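import Pool.Agent.H74.LV.Heis

set_option autoImplicit false

/-!
# The variety of the ordered Heisenberg group is minimal without finite rank

`Heis` is the Heisenberg group over the integers, the triples `(x, y, z)` with the product
`(x + x', y + y', z + z' + x y')`, totally ordered lexicographically: an element is positive if
`x > 0`, or `x = 0` and `y > 0`, or `x = y = 0` and `z > 0`. `IdHeis` is the set of all laws
(equations between terms in the language of `ℓ`-groups) which hold in `Heis`, so that it defines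
the variety generated by `Heis`. Terms, laws, `Satisfies`, `FiniteRank`, `SubvarietyOf` are those
of the library (`Pool.Graph.R_seed8.Helper6`, files `LVarDefs`, `LVarVars`, `LVarFR`).
-/

namespace Pool.Agent.Results.MP_2301b5_al.HeisenbergVariety

open Pool.Agent.Helper6.LVar

/-- The commutative law `x₀ x₁ = x₁ x₀`. -/
def commLaw : LTerm × LTerm := (.mul (.var 0) (.var 1), .mul (.var 1) (.var 0))

/-- The law `x₀ = 1`. -/
def trivLaw : LTerm × LTerm := (.var 0, .one)

/-- Two sets of laws define the same variety. -/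
def SameVariety (E E' : Set (LTerm × LTerm)) : Prop := SubvarietyOf E E' ∧ SubvarietyOf E' E

/-- The variety `𝓗` generated by the ordered Heisenberg group `Heis` is not of finite rank, while
all its proper subvarieties are. More precisely:
1. for every `n` a law of `𝓗` in `2 (n² + n + 3)` variables fails in a totally ordered group,
   nilpotent of class two, in which all laws of `𝓗` in `n` variables hold;
2. the proper subvarieties of `𝓗` are the variety of the abelian `ℓ`-groups and the trivial one;
3. every nonabelian member of `𝓗` generates `𝓗`: its laws are those of `Heis`. -/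
theorem result :
    (¬ FiniteRank IdHeis ∧ ∀ E' : Set (LTerm × LTerm),
      SubvarietyOf E' IdHeis → ¬ SubvarietyOf IdHeis E' → FiniteRank E') ∧
    (∀ n : ℕ, ∃ e ∈ IdHeis,
      e.1.VarsLT (2 * (n ^ 2 + n + 3)) ∧ e.2.VarsLT (2 * (n ^ 2 + n + 3)) ∧
      ∃ (G : Type) (_ : Group G) (_ : LinearOrder G), MulLeftMono G ∧ MulRightMono G ∧
        (∀ a b c : G, (a * b * a⁻¹ * b⁻¹) * c = c * (a * b * a⁻¹ * b⁻¹)) ∧
        (∀ e' ∈ IdHeis, e'.1.VarsLT n → e'.2.VarsLT n → Satisfies {e'} G) ∧
        ¬ Satisfies {e} G) ∧
    (∀ E' : Set (LTerm × LTerm), (SubvarietyOf E' IdHeis ∧ ¬ SubvarietyOf IdHeis E') ↔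
      SameVariety E' {commLaw} ∨ SameVariety E' {trivLaw}) ∧
    ¬ SameVariety {commLaw} {trivLaw} ∧
    (∀ (G : Type) [Group G] [Lattice G] [MulLeftMono G] [MulRightMono G], Satisfies IdHeis G →
      (∃ p q : G, p * q ≠ q * p) → ∀ e : LTerm × LTerm, Satisfies {e} G ↔ e ∈ IdHeis) := by
  refine ⟨⟨not_finiteRank_heis, fun E' h1 h2 => finiteRank_of_proper E' h1 h2⟩,
    Pool.Agent.H74.LV.local_fail, ?_, ?_, ?_⟩
  · intro E'
    constructor
    · rintro ⟨h1, h2⟩
      exact Pool.Agent.H74.LV.proper_sub E' h1 h2
    · rintro (⟨h1, h2⟩ | ⟨h1, h2⟩)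
      · refine ⟨fun G _ _ _ _ h => Pool.Agent.H74.LV.abelian_sub G (h1 G h), fun h => ?_⟩
        exact Pool.Agent.H74.LV.heis_nonabelian (h1 Heis (h Heis heis_sat))
      · refine ⟨fun G _ _ _ _ h => Pool.Agent.H74.LV.abelian_sub G
          (Pool.Agent.H74.LV.trivial_sub G (h1 G h)), fun h => ?_⟩
        exact Pool.Agent.H74.LV.heis_nonabelian
          (Pool.Agent.H74.LV.trivial_sub Heis (h1 Heis (h Heis heis_sat)))
  · rintro ⟨h, -⟩
    refine Pool.Agent.H74.LV.int_nontrivial (h (Multiplicative ℤ) ?_)
    exact Pool.Agent.H74.LV.sat_com.mpr fun x y => mul_comm x y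
  · intro G _ _ _ _ hG hna e
    constructor
    · intro h v
      exact heis_of_nonabelian hG hna {e} h _ rfl v
    · intro h e' he' v
      rw [Set.mem_singleton_iff] at he'
      subst he'
      exact hG _ h v

end Pool.Agent.Results.MP_2301b5_al.HeisenbergVariety
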